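import Mathlib
import Pool.Agent.H487R3.Cau.Stmts

set_option autoImplicit false

open MeasureTheory Filter Set Topology
open scoped ENNReal NNReal

namespace Pool.Agent.H968R3.Cau

open Pool.Agent.H487R3.Cau

theorem phi_bound (z : ℂ) (hz : ‖z‖ ≤ 3) : ‖Phi z‖ ≤ 20 := by
  unfold Phi Lg
  by_cases h0 : z = 0
  · simp [h0]
  have hpos : 0 < ‖z‖ := norm_pos_iff.mpr h0
  rw [norm_mul]
  have h1 : ‖Complex.log (-Complex.I * z)‖ ≤ |Real.log ‖z‖| + Real.pi := by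
    have h2 : ‖Complex.log (-Complex.I * z)‖ ≤
        |(Complex.log (-Complex.I * z)).re| + |(Complex.log (-Complex.I * z)).im| :=
      Complex.norm_le_abs_re_add_abs_im _
    rw [Complex.log_re, Complex.log_im] at h2
    have h3 : ‖-Complex.I * z‖ = ‖z‖ := by simp
    rw [h3] at h2
    have h4 := Complex.abs_arg_le_pi (-Complex.I * z)
    linarith
  have h5 : ‖z‖ * |Real.log ‖z‖| ≤ 1 + ‖z‖ ^ 2 := by
    rcases le_total 1 ‖z‖ with h | h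
    · have hl : 0 ≤ Real.log ‖z‖ := Real.log_nonneg h
      rw [abs_of_nonneg hl]
      have : Real.log ‖z‖ ≤ ‖z‖ - 1 := Real.log_le_sub_one_of_pos hpos
      nlinarith
    · have hl : Real.log ‖z‖ ≤ 0 := Real.log_nonpos hpos.le h
      rw [abs_of_nonpos hl]
      have h6 : Real.log (‖z‖⁻¹) ≤ ‖z‖⁻¹ - 1 := Real.log_le_sub_one_of_pos (by positivity)
      rw [Real.log_inv] at h6
      have h7 : ‖z‖ * (-Real.log ‖z‖) ≤ ‖z‖ * (‖z‖⁻¹ - 1) := mul_le_mul_of_nonneg_left h6 hpos.le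
      have h8 : ‖z‖ * (‖z‖⁻¹ - 1) = 1 - ‖z‖ := by field_simp
      nlinarith
  have h9 := Real.pi_lt_d2
  calc ‖z‖ * ‖Complex.log (-Complex.I * z)‖ ≤ ‖z‖ * (|Real.log ‖z‖| + Real.pi) :=
        mul_le_mul_of_nonneg_left h1 hpos.le
    _ = ‖z‖ * |Real.log ‖z‖| + ‖z‖ * Real.pi := by ring
    _ ≤ 1 + ‖z‖ ^ 2 + ‖z‖ * Real.pi := by linarith
    _ ≤ 20 := by nlinarith [Real.pi_pos]

theorem g_bound (a : ℝ → ℂ) (ha : LipschitzWith (1 / 10) a) : ‖G a 1 - G a 0‖ ≤ 2 := by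
  unfold G
  have h1 : ‖a 1 - a 0‖ ≤ 1 / 10 := by
    have := ha.dist_le_mul 1 0
    rw [dist_eq_norm, dist_eq_norm] at this
    simpa using this
  calc ‖((1 : ℝ) : ℂ) + a 1 - (((0 : ℝ) : ℂ) + a 0)‖ = ‖(1 : ℂ) + (a 1 - a 0)‖ := by
        congr 1; push_cast; ring
    _ ≤ ‖(1 : ℂ)‖ + ‖a 1 - a 0‖ := norm_add_le _ _
    _ ≤ 2 := by rw [norm_one]; linarith

theorem root (a : ℝ → ℂ) (ha : LipschitzWith (1 / 10) a) (δ : ℝ) (hδ : 0 < δ) (hδ1 : δ ≤ 1) :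
    ‖P a δ 1 1 - P a δ 0 1 - P a δ 1 0 + P a δ 0 0‖ ≤ 80 := by
  have hg := g_bound a ha
  have hI : ‖(δ : ℂ) * Complex.I‖ ≤ 1 := by
    rw [norm_mul, Complex.norm_I, mul_one, Complex.norm_real, Real.norm_eq_abs, abs_of_pos hδ]
    exact hδ1
  have b11 : ‖P a δ 1 1‖ ≤ 20 := by
    unfold P; apply phi_bound; rw [sub_self, zero_add]; linarith
  have b00 : ‖P a δ 0 0‖ ≤ 20 := by
    unfold P; apply phi_bound; rw [sub_self, zero_add]; linarith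
  have b01 : ‖P a δ 0 1‖ ≤ 20 := by
    unfold P; apply phi_bound
    calc _ ≤ ‖G a 1 - G a 0‖ + ‖(δ : ℂ) * Complex.I‖ := norm_add_le _ _
      _ ≤ 3 := by linarith
  have b10 : ‖P a δ 1 0‖ ≤ 20 := by
    unfold P; apply phi_bound
    calc _ ≤ ‖G a 0 - G a 1‖ + ‖(δ : ℂ) * Complex.I‖ := norm_add_le _ _
      _ ≤ 3 := by rw [norm_sub_rev]; linarith
  calc ‖P a δ 1 1 - P a δ 0 1 - P a δ 1 0 + P a δ 0 0‖
      ≤ ‖P a δ 1 1 - P a δ 0 1 - P a δ 1 0‖ + ‖P a δ 0 0‖ := norm_add_le _ _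
    _ ≤ ‖P a δ 1 1 - P a δ 0 1‖ + ‖P a δ 1 0‖ + ‖P a δ 0 0‖ := by
        gcongr; exact norm_sub_le _ _
    _ ≤ ‖P a δ 1 1‖ + ‖P a δ 0 1‖ + ‖P a δ 1 0‖ + ‖P a δ 0 0‖ := by
        gcongr; exact norm_sub_le _ _
    _ ≤ 80 := by linarith

theorem wd_sub (a : ℝ → ℂ) (Q R : ℝ → ℂ) (m j : ℕ) :
    Wd a (fun y => Q y - R y) m j = Wd a Q m j - Wd a R m j := by
  unfold Wd W
  ring

theorem sum_sq' (M : ℕ) :
    ∑ j ∈ Finset.range (M + 1), (1 / (1 + (j : ℝ))) ^ 2 ≤ 2 - 1 / ((M : ℝ) + 1) := by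
  induction M with
  | zero => norm_num
  | succ M ih =>
    rw [Finset.sum_range_succ]
    have h : (1 / (1 + ((M + 1 : ℕ) : ℝ))) ^ 2 ≤ 1 / ((M : ℝ) + 1) - 1 / (((M + 1 : ℕ) : ℝ) + 1) := by
      have h1 : (0 : ℝ) < (M : ℝ) + 1 := by positivity
      have h2 : (0 : ℝ) < (M : ℝ) + 2 := by positivity
      push_cast
      rw [div_sub_div _ _ (by positivity) (by positivity), div_pow, div_le_div_iff₀ (by positivity) (by positivity)]
      nlinarith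
    linarith

theorem sum_sq (M : ℕ) : ∑ j ∈ Finset.range M, (1 / (1 + (j : ℝ))) ^ 2 ≤ 2 := by
  rcases M with _ | M
  · simp
  · have := sum_sq' M
    have h : 0 ≤ 1 / ((M : ℝ) + 1) := by positivity
    linarith

theorem sum_sq_refl (M : ℕ) :
    ∑ j ∈ Finset.range M, (1 / (1 + ((M - 1 - j : ℕ) : ℝ))) ^ 2 ≤ 2 := by
  rw [Finset.sum_range_reflect (fun j => (1 / (1 + (j : ℝ))) ^ 2) M]
  exact sum_sq M

/-- abstract summation -/
theorem total (C : ℝ) (hC : 0 < C) (F F0 F1 : ℕ → ℕ → ℂ)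
    (hF : ∀ m j, F m j = F1 m j - F0 m j)
    (h0 : ∀ m j, j < 2 ^ m → ‖F0 m j‖ ≤ C * (1 / (1 + (j : ℝ))))
    (h1 : ∀ m j, j < 2 ^ m → ‖F1 m j‖ ≤ C * (1 / (1 + ((2 ^ m - 1 - j : ℕ) : ℝ)))) (N : ℕ) :
    ∑ m ∈ Finset.range N, ∑ j ∈ Finset.range (2 ^ m), ((2 : ℝ) ^ m)⁻¹ * ‖F m j‖ ^ 2 ≤
      16 * C ^ 2 := by
  have key : ∀ m, ∑ j ∈ Finset.range (2 ^ m), ((2 : ℝ) ^ m)⁻¹ * ‖F m j‖ ^ 2 ≤
      8 * C ^ 2 * (1 / 2) ^ m := by
    intro m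
    rw [← Finset.mul_sum]
    have h2 : ∑ j ∈ Finset.range (2 ^ m), ‖F m j‖ ^ 2 ≤ 8 * C ^ 2 := by
      have h3 : ∀ j ∈ Finset.range (2 ^ m), ‖F m j‖ ^ 2 ≤
          2 * C ^ 2 * (1 / (1 + ((2 ^ m - 1 - j : ℕ) : ℝ))) ^ 2 +
          2 * C ^ 2 * (1 / (1 + (j : ℝ))) ^ 2 := by
        intro j hj
        have hj' := Finset.mem_range.mp hj
        have e0 := h0 m j hj'
        have e1 := h1 m j hj'
        have e2 : ‖F m j‖ ≤ ‖F1 m j‖ + ‖F0 m j‖ := by rw [hF]; exact norm_sub_le _ _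
        have e3 : ‖F m j‖ ≤ C * (1 / (1 + ((2 ^ m - 1 - j : ℕ) : ℝ))) + C * (1 / (1 + (j : ℝ))) := by
          linarith
        have e4 : ‖F m j‖ ^ 2 ≤ (C * (1 / (1 + ((2 ^ m - 1 - j : ℕ) : ℝ))) + C * (1 / (1 + (j : ℝ)))) ^ 2 :=
          pow_le_pow_left₀ (norm_nonneg _) e3 2
        nlinarith [sq_nonneg (C * (1 / (1 + ((2 ^ m - 1 - j : ℕ) : ℝ))) - C * (1 / (1 + (j : ℝ))))]
      calc ∑ j ∈ Finset.range (2 ^ m), ‖F m j‖ ^ 2 ≤ _ := Finset.sum_le_sum h3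
        _ = 2 * C ^ 2 * ∑ j ∈ Finset.range (2 ^ m), (1 / (1 + ((2 ^ m - 1 - j : ℕ) : ℝ))) ^ 2 +
            2 * C ^ 2 * ∑ j ∈ Finset.range (2 ^ m), (1 / (1 + (j : ℝ))) ^ 2 := by
            rw [Finset.sum_add_distrib, ← Finset.mul_sum, ← Finset.mul_sum]
        _ ≤ 2 * C ^ 2 * 2 + 2 * C ^ 2 * 2 := by
            gcongr
            · exact sum_sq_refl _
            · exact sum_sq _
        _ = 8 * C ^ 2 := by ring
    calc ((2 : ℝ) ^ m)⁻¹ * ∑ j ∈ Finset.range (2 ^ m), ‖F m j‖ ^ 2 ≤ ((2 : ℝ) ^ m)⁻¹ * (8 * C ^ 2) := by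
          gcongr
      _ = 8 * C ^ 2 * (1 / 2) ^ m := by
          rw [one_div, inv_pow]; ring
  calc ∑ m ∈ Finset.range N, ∑ j ∈ Finset.range (2 ^ m), ((2 : ℝ) ^ m)⁻¹ * ‖F m j‖ ^ 2
      ≤ ∑ m ∈ Finset.range N, 8 * C ^ 2 * (1 / 2) ^ m := Finset.sum_le_sum fun m _ => key m
    _ = 8 * C ^ 2 * ∑ m ∈ Finset.range N, (1 / 2 : ℝ) ^ m := by rw [Finset.mul_sum]
    _ ≤ 8 * C ^ 2 * 2 := by
        gcongr
        rw [geom_sum_eq (by norm_num)]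
        have : 0 ≤ (1 / 2 : ℝ) ^ N := by positivity
        have e : ((1 / 2 : ℝ) ^ N - 1) / (1 / 2 - 1) = 2 - 2 * (1 / 2 : ℝ) ^ N := by
          field_simp; ring
        rw [e]; linarith
    _ = 16 * C ^ 2 := by ring

/-- geometry at the node 0 -/
theorem node0 (C : ℝ) (hC : 0 < C) (w : ℕ → ℕ → ℂ)
    (hb : ∀ m j : ℕ, ‖w m j‖ ≤ C)
    (hd : ∀ m j : ℕ, ∀ D : ℝ, 0 < D →
      (∀ x ∈ Icc ((j : ℝ) / 2 ^ m) ((j : ℝ) / 2 ^ m + 2 * (1 / 2 ^ (m + 1))), D ≤ |x - 0|) →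
      ‖w m j‖ ≤ C * (1 / 2 ^ (m + 1) / D)) (m j : ℕ) :
    ‖w m j‖ ≤ C * (1 / (1 + (j : ℝ))) := by
  rcases Nat.eq_zero_or_pos j with rfl | hj
  · simpa using hb m 0
  · have hj1 : (1 : ℝ) ≤ (j : ℝ) := by exact_mod_cast hj
    have hp : (0 : ℝ) < 2 ^ m := by positivity
    have hD : (0 : ℝ) < (j : ℝ) / 2 ^ m := by positivity
    have := hd m j _ hD (by
      intro x hx
      have hx0 : 0 ≤ x := hD.le.trans hx.1
      rw [sub_zero, abs_of_nonneg hx0]; exact hx.1)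
    refine this.trans ?_
    apply mul_le_mul_of_nonneg_left _ hC.le
    have e : (1 : ℝ) / 2 ^ (m + 1) / ((j : ℝ) / 2 ^ m) = 1 / (2 * j) := by
      field_simp; ring
    rw [e]
    apply one_div_le_one_div_of_le (by positivity)
    linarith

/-- geometry at the node 1 -/
theorem node1 (C : ℝ) (hC : 0 < C) (w : ℕ → ℕ → ℂ)
    (hb : ∀ m j : ℕ, ‖w m j‖ ≤ C)
    (hd : ∀ m j : ℕ, ∀ D : ℝ, 0 < D →
      (∀ x ∈ Icc ((j : ℝ) / 2 ^ m) ((j : ℝ) / 2 ^ m + 2 * (1 / 2 ^ (m + 1))), D ≤ |x - 1|) →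
      ‖w m j‖ ≤ C * (1 / 2 ^ (m + 1) / D)) (m j : ℕ) (hj : j < 2 ^ m) :
    ‖w m j‖ ≤ C * (1 / (1 + ((2 ^ m - 1 - j : ℕ) : ℝ))) := by
  rcases Nat.eq_zero_or_pos (2 ^ m - 1 - j) with h0 | hk
  · rw [h0]; simpa using hb m j
  · set k := 2 ^ m - 1 - j with hkdef
    have hk1 : (1 : ℝ) ≤ (k : ℝ) := by exact_mod_cast hk
    have hsum : (k : ℝ) + 1 + j = 2 ^ m := by
      have : k + 1 + j = 2 ^ m := by omega
      exact_mod_cast this
    have hp : (0 : ℝ) < 2 ^ m := by positivity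
    have hD : (0 : ℝ) < (k : ℝ) / 2 ^ m := by positivity
    have := hd m j _ hD (by
      intro x hx
      have hx1 : x ≤ ((j : ℝ) + 1) / 2 ^ m := by
        refine hx.2.trans (le_of_eq ?_)
        field_simp; ring
      have h2 : 1 - x ≥ (k : ℝ) / 2 ^ m := by
        have : (k : ℝ) / 2 ^ m = 1 - ((j : ℝ) + 1) / 2 ^ m := by
          rw [eq_sub_iff_add_eq, ← add_div, div_eq_one_iff_eq hp.ne']; linarith
        linarith
      rw [abs_sub_comm, abs_of_nonneg (by linarith)]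
      exact h2)
    refine this.trans ?_
    apply mul_le_mul_of_nonneg_left _ hC.le
    have e : (1 : ℝ) / 2 ^ (m + 1) / ((k : ℝ) / 2 ^ m) = 1 / (2 * k) := by
      field_simp; ring
    rw [e]
    apply one_div_le_one_div_of_le (by positivity)
    linarith

theorem taskRoot : TaskRoot := by
  intro hnear
  obtain ⟨C, hC, h⟩ := hnear
  refine ⟨80 + 16 * C ^ 2, by positivity, ?_⟩
  intro a ha δ hδ hδ1
  refine ⟨(root a ha δ hδ hδ1).trans (by nlinarith [sq_nonneg C]), ?_⟩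
  intro N
  have hpos : ∀ m : ℕ, (0 : ℝ) < 1 / 2 ^ (m + 1) := fun m => by positivity
  constructor
  · have := total C hC (fun m j => Wd a (fun y => P a δ 1 y - P a δ 0 y) m j)
      (fun m j => Wd a (fun y => P a δ 0 y) m j) (fun m j => Wd a (fun y => P a δ 1 y) m j)
      (fun m j => wd_sub a _ _ m j)
      (fun m j _ => node0 C hC (fun m j => Wd a (fun y => P a δ 0 y) m j)
        (fun m j => (h a ha δ hδ hδ1 0 _ _ (hpos m)).2.1)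
        (fun m j D hD hx => ((h a ha δ hδ hδ1 0 _ _ (hpos m)).2.2 D hD hx).2) m j)
      (fun m j hj => node1 C hC (fun m j => Wd a (fun y => P a δ 1 y) m j)
        (fun m j => (h a ha δ hδ hδ1 1 _ _ (hpos m)).2.1)
        (fun m j D hD hx => ((h a ha δ hδ hδ1 1 _ _ (hpos m)).2.2 D hD hx).2) m j hj) N
    linarith
  · have := total C hC (fun m j => Wd a (fun x => P a δ x 1 - P a δ x 0) m j)
      (fun m j => Wd a (fun x => P a δ x 0) m j) (fun m j => Wd a (fun x => P a δ x 1) m j)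
      (fun m j => wd_sub a _ _ m j)
      (fun m j _ => node0 C hC (fun m j => Wd a (fun x => P a δ x 0) m j)
        (fun m j => (h a ha δ hδ hδ1 0 _ _ (hpos m)).1)
        (fun m j D hD hx => ((h a ha δ hδ hδ1 0 _ _ (hpos m)).2.2 D hD hx).1) m j)
      (fun m j hj => node1 C hC (fun m j => Wd a (fun x => P a δ x 1) m j)
        (fun m j => (h a ha δ hδ hδ1 1 _ _ (hpos m)).1)
        (fun m j D hD hx => ((h a ha δ hδ hδ1 1 _ _ (hpos m)).2.2 D hD hx).1) m j hj) N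
    linarith

end Pool.Agent.H968R3.Cau
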